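import Pool.Agent.H39.VQ.Targets

/-!
# CD: the coherent estimate for the off-diagonal parts (helper89)
-/

set_option autoImplicit false

open Finset Polynomial

namespace Pool.Agent.H89.VQ

open Pool.Agent.H11.CV Pool.Agent.H39.VQ

/-- the weights -/
noncomputable def ww {G : Type} (p a : ℕ) (F : ℕ → G → ℂ) (ξ : ℕ) (g : G) : ℝ :=
  (p : ℝ) * ∑ i ∈ range p, ‖F (ξ + p ^ a * i) g‖ ^ 2

theorem ww_nonneg {G : Type} (p a : ℕ) (F : ℕ → G → ℂ) (ξ : ℕ) (g : G) : 0 ≤ ww p a F ξ g := by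
  unfold ww
  positivity

theorem dlt_le_ww {G : Type} (p a : ℕ) (F : ℕ → G → ℂ) (ξ : ℕ) (g : G) :
    ‖dlt p a F ξ g‖ ≤ ww p a F ξ g := by
  unfold dlt ww
  calc ‖∑ i ∈ range p, ∑ i' ∈ (range p).filter (fun i' => i' ≠ i),
        F (ξ + p ^ a * i) g * (starRingEnd ℂ) (F (ξ + p ^ a * i') g)‖
      ≤ ∑ i ∈ range p, ∑ i' ∈ (range p).filter (fun i' => i' ≠ i),
        ‖F (ξ + p ^ a * i) g‖ * ‖F (ξ + p ^ a * i') g‖ := by
        refine (norm_sum_le _ _).trans (Finset.sum_le_sum fun i _ => ?_)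
        refine (norm_sum_le _ _).trans (Finset.sum_le_sum fun i' _ => ?_)
        rw [norm_mul, RCLike.norm_conj]
    _ ≤ ∑ i ∈ range p, ∑ i' ∈ range p,
        ‖F (ξ + p ^ a * i) g‖ * ‖F (ξ + p ^ a * i') g‖ := by
        refine Finset.sum_le_sum fun i _ => ?_
        exact Finset.sum_le_sum_of_subset_of_nonneg (Finset.filter_subset _ _)
          fun _ _ _ => by positivity
    _ = (∑ i ∈ range p, ‖F (ξ + p ^ a * i) g‖) ^ 2 := by
        rw [pow_two, Finset.sum_mul_sum]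
    _ ≤ (p : ℝ) * ∑ i ∈ range p, ‖F (ξ + p ^ a * i) g‖ ^ 2 := by
        have := sq_sum_le_card_mul_sum_sq (s := range p) (f := fun i => ‖F (ξ + p ^ a * i) g‖)
        simpa using this

theorem slc_le {G : Type} [AddCommGroup G] (M : ℕ) (v : G) (r : ℕ) (h : G → ℂ) (w : G → ℝ)
    (hM : 0 < M) (hEX : T_EX) (hh : ∀ g, ‖h g‖ ≤ w g) (hw : ∀ g, w (g + v) = w g) (g : G) :
    ‖slc M v r h g‖ ≤ w g := by
  have hwt : ∀ t : ℕ, w (g + t • v) = w g := by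
    intro t
    induction t with
    | zero => simp
    | succ t ih => rw [succ_nsmul, ← add_assoc, hw, ih]
  unfold slc
  rw [norm_mul, norm_inv, Complex.norm_natCast]
  have h1 : ‖∑ t ∈ range M, ee M (-((r : ℤ) * (t : ℤ))) * h (g + t • v)‖ ≤ M * w g := by
    calc _ ≤ ∑ t ∈ range M, ‖ee M (-((r : ℤ) * (t : ℤ))) * h (g + t • v)‖ := norm_sum_le _ _
      _ ≤ ∑ t ∈ range M, w g := by
          refine Finset.sum_le_sum fun t _ => ?_
          rw [norm_mul, hEX.1, one_mul]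
          exact (hh _).trans (hwt t).le
      _ = M * w g := by simp
  have hMr : (0 : ℝ) < M := by exact_mod_cast hM
  calc (M : ℝ)⁻¹ * ‖∑ t ∈ range M, ee M (-((r : ℤ) * (t : ℤ))) * h (g + t • v)‖
      ≤ (M : ℝ)⁻¹ * (M * w g) := by gcongr
    _ = w g := by field_simp

/-- inverses modulo a power of a prime -/
theorem exists_inv (p m c : ℕ) (hp : p.Prime) (hc : ¬ p ∣ c) :
    ∃ w : ℤ, (p : ℤ) ^ m ∣ (c : ℤ) * w - 1 := by
  have hco : IsCoprime ((c : ℤ)) ((p : ℤ) ^ m) := by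
    apply IsCoprime.pow_right
    rw [Nat.isCoprime_iff_coprime]
    exact ((Nat.Prime.coprime_iff_not_dvd hp).2 hc).symm
  obtain ⟨u, v, huv⟩ := hco
  refine ⟨u, -v, ?_⟩
  linear_combination huv

theorem vv_eq {G : Type} [AddCommGroup G] (p m a : ℕ) (τ : ℤ[X] →+ G) :
    vv p m (a + 1) τ = p ^ (m - a - 1) • τ X := by
  unfold vv
  rw [← map_nsmul]
  congr 1
  rw [Nat.sub_sub, nsmul_eq_mul]
  simp

theorem p_vv {G : Type} [AddCommGroup G] (p m a : ℕ) (τ : ℤ[X] →+ G) (h : a + 1 ≤ m) :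
    p • vv p m (a + 1) τ = τ (C ((p : ℤ) ^ (m - a)) * X) := by
  unfold vv
  rw [← map_nsmul]
  congr 1
  have h1 : m - a = (m - (a + 1)) + 1 := by omega
  rw [h1, pow_succ, nsmul_eq_mul]
  simp only [map_mul, map_natCast, map_pow]
  ring

theorem cnt_le_sum {G : Type} [AddCommGroup G] [Fintype G] (S : Set G) (I : Finset ℕ)
    (T : ℕ → Set G) (h : ∀ g ∈ S, ∃ r ∈ I, g ∈ T r) : cnt S ≤ ∑ r ∈ I, cnt (T r) := by
  classical
  unfold cnt
  have h1 : (univ.filter (fun g => g ∈ S)) ⊆ I.biUnion (fun r => univ.filter (fun g => g ∈ T r)) := by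
    intro g hg
    simp only [Finset.mem_filter, Finset.mem_univ, true_and] at hg
    obtain ⟨r, hr, hgr⟩ := h g hg
    simp only [Finset.mem_biUnion, Finset.mem_filter, Finset.mem_univ, true_and]
    exact ⟨r, hr, hgr⟩
  have h2 := (Finset.card_le_card h1).trans Finset.card_biUnion_le
  have h3 : ((univ.filter (fun g => g ∈ S)).card : ℝ) ≤
      ((∑ r ∈ I, (univ.filter (fun g => g ∈ T r)).card : ℕ) : ℝ) := by
    exact_mod_cast (by convert h2)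
  push_cast at h3
  convert h3

theorem pow16 (p : ℕ) (hp : 0 < p) (x : ℕ → ℝ) :
    ((p : ℝ) * ∑ i ∈ range p, x i ^ 2) ^ 8 ≤ (p : ℝ) ^ 15 * ∑ i ∈ range p, x i ^ 16 := by
  have h := pow_sum_div_card_le_sum_pow (s := range p) (f := fun i => x i ^ 2)
    (fun i _ => by positivity) 7
  have hp' : (0 : ℝ) < p := by exact_mod_cast hp
  rw [Finset.card_range, div_le_iff₀ (by positivity)] at h
  calc ((p : ℝ) * ∑ i ∈ range p, x i ^ 2) ^ 8
      = (p : ℝ) ^ 8 * (∑ i ∈ range p, x i ^ 2) ^ (7 + 1) := by ring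
    _ ≤ (p : ℝ) ^ 8 * ((∑ i ∈ range p, (x i ^ 2) ^ (7 + 1)) * (p : ℝ) ^ 7) := by gcongr
    _ = (p : ℝ) ^ 15 * ∑ i ∈ range p, x i ^ 16 := by
        have : ∀ i, (x i ^ 2) ^ (7 + 1) = x i ^ 16 := fun i => by ring
        simp_rw [this]
        ring

/-- the constants -/
theorem const_aux (p A n : ℕ) (hp : 1 < p) (θ : ℝ) (hθ : (((n : ℝ) + 2) ^ A)⁻¹ ≤ θ) :
    (((n : ℝ) + 2) ^ (A + 3 * p))⁻¹ ≤ θ / (p : ℝ) ^ 2 := by
  have hp0 : (0 : ℝ) < p := by exact_mod_cast (by omega : 0 < p)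
  have h2 : (p : ℝ) ^ 2 ≤ ((n : ℝ) + 2) ^ (3 * p) := by
    have h3 : (p : ℝ) ≤ 2 ^ p := by exact_mod_cast (Nat.lt_two_pow_self (n := p)).le
    calc (p : ℝ) ^ 2 ≤ (2 ^ p) ^ 2 := by gcongr
      _ ≤ (2 ^ p) ^ 3 := pow_le_pow_right₀ (one_le_pow₀ (by norm_num)) (by norm_num)
      _ = 2 ^ (3 * p) := by rw [← pow_mul, mul_comm]
      _ ≤ ((n : ℝ) + 2) ^ (3 * p) := by
          apply pow_le_pow_left₀ (by norm_num)
          have : (0 : ℝ) ≤ n := n.cast_nonneg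
          linarith
  have hn : (0 : ℝ) < (n : ℝ) + 2 := by positivity
  rw [le_div_iff₀ (by positivity), pow_add, mul_inv]
  calc (((n : ℝ) + 2) ^ A)⁻¹ * (((n : ℝ) + 2) ^ (3 * p))⁻¹ * (p : ℝ) ^ 2
      ≤ (((n : ℝ) + 2) ^ A)⁻¹ * (((n : ℝ) + 2) ^ (3 * p))⁻¹ * ((n : ℝ) + 2) ^ (3 * p) := by
        gcongr
    _ = (((n : ℝ) + 2) ^ A)⁻¹ := by
        rw [mul_assoc, inv_mul_cancel₀ (by positivity), mul_one]
    _ ≤ θ := hθ

theorem exp_aux (p : ℕ) (hp : 1 < p) (C : ℝ) (n : ℕ) :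
    (p : ℝ) ^ 24 * Real.exp (C * Real.log ((n : ℝ) + 2) ^ 2) ≤
      Real.exp ((C + 24 * Real.log p / Real.log 2 ^ 2) * Real.log ((n : ℝ) + 2) ^ 2) := by
  have hp0 : (0 : ℝ) < p := by exact_mod_cast (by omega : 0 < p)
  have hp1 : (1 : ℝ) ≤ p := by exact_mod_cast hp.le
  have hl2 : 0 < Real.log 2 := Real.log_pos (by norm_num)
  have h1 : (p : ℝ) ^ 24 = Real.exp (24 * Real.log p) := by
    rw [← Real.exp_log (pow_pos hp0 24), Real.log_pow]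
    norm_num
  rw [h1, ← Real.exp_add]
  apply Real.exp_le_exp.2
  have h3 : Real.log 2 ≤ Real.log ((n : ℝ) + 2) :=
    Real.log_le_log (by norm_num) (by linarith [(n.cast_nonneg : (0 : ℝ) ≤ n)])
  have h4 : Real.log 2 ^ 2 ≤ Real.log ((n : ℝ) + 2) ^ 2 := pow_le_pow_left₀ hl2.le h3 2
  have h5 : 24 * Real.log p ≤ 24 * Real.log p / Real.log 2 ^ 2 * Real.log ((n : ℝ) + 2) ^ 2 := by
    rw [div_mul_eq_mul_div, le_div_iff₀ (by positivity)]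
    exact mul_le_mul_of_nonneg_left h4 (by have := Real.log_nonneg hp1; positivity)
  nlinarith

theorem cd (hC8 : V_C8) (hDK : V_DK) (hSL : T_SL) (hDL : T_DL) (hEX : T_EX) (hRS : T_RS) :
    V_CD := by
  intro p A hp hp3
  obtain ⟨C₁, hC₁, hC⟩ := hC8 p (A + 3 * p)
  have hp1 : 1 < p := by omega
  have hp0 : (0 : ℝ) < p := by exact_mod_cast (by omega : 0 < p)
  have hp1r : (1 : ℝ) ≤ p := by exact_mod_cast hp1.le
  have hl2 : 0 < Real.log 2 := Real.log_pos (by norm_num)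
  refine ⟨C₁ + 24 * Real.log p / Real.log 2 ^ 2, by
    have := Real.log_nonneg hp1r
    positivity, ?_⟩
  intro n m a G _ _ τ F θ Y han hm hY hθ hθ1 hF hB
  have hEX' := hEX
  obtain ⟨w₂, hw₂⟩ := exists_inv p m 2 hp (fun h => by
    have := Nat.le_of_dvd (by norm_num) h
    omega)
  obtain ⟨w₃, hw₃⟩ := exists_inv p m 3 hp (fun h => by
    have := Nat.le_of_dvd (by norm_num) h
    omega)
  push_cast at hw₂ hw₃
  set u0 : G := τ X with hu0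
  set u1 : G := τ (C w₂ * X ^ 2) with hu1
  set u2 : G := τ (C w₃ * X ^ 3) with hu2
  have hlt : ∀ ξ i : ℕ, ξ < p ^ a → i < p → ξ + p ^ a * i < p ^ (a + 1) := by
    intro ξ i hξ hi
    have := (hRS p a 1 hp1).2.1 ξ i hξ (by simpa using hi)
    exact this
  have hcl : ∀ ξ : ℕ, ξ < p ^ a → ∀ i : ℕ, i < p →
      Cls p 3 m τ (a + 1) ((ξ + p ^ a * i : ℕ) : ℤ) (F (ξ + p ^ a * i)) :=
    fun ξ hξ i hi => hF _ (hlt ξ i hξ hi)
  set δ : ℕ → ℕ → G → ℂ := fun r ξ => slc p (vv p m (a + 1) τ) r (dlt p a F ξ) with hδ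
  -- invariance
  have hinv : ∀ ξ : ℕ, ξ < p ^ a → Iv p (m - a) a u0 u1 u2 (ξ : ℤ) (ww p a F ξ) :=
    fun ξ hξ => (hDK p m a 0 ξ w₂ w₃ G τ F hp1 hm hw₂ hw₃ (hcl ξ hξ)).2
  have hinvv : ∀ ξ : ℕ, ξ < p ^ a → ∀ g, ww p a F ξ (g + vv p m (a + 1) τ) = ww p a F ξ g := by
    intro ξ hξ g
    rw [vv_eq]
    exact (hinv ξ hξ).1 g
  have hsys : ∀ r ∈ Ico 1 p, Sys p (m - a) a u0 u1 u2 (r : ℤ) (ww p a F) (δ r) := by
    intro r hr
    rw [Finset.mem_Ico] at hr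
    refine ⟨hp, by omega, by omega, by omega, ?_, ?_, hinv, ?_, ?_⟩
    · intro h
      have := Nat.le_of_dvd (by omega) (Int.natCast_dvd_natCast.1 h)
      omega
    · intro s hs
      exact (hDK p m a r s w₂ w₃ G τ F hp1 hm hw₂ hw₃ (hcl s hs)).1
    · intro s g _
      exact ww_nonneg _ _ _ _ _
    · intro s g hs
      exact slc_le p (vv p m (a + 1) τ) r (dlt p a F s) (ww p a F s) (by omega) hEX
        (fun g => dlt_le_ww p a F s g) (hinvv s hs) g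
  -- the decomposition into slices
  have hdec : ∀ g, ∑ ξ ∈ range (p ^ a), dlt p a F ξ g =
      ∑ r ∈ Ico 1 p, ∑ ξ ∈ range (p ^ a), δ r ξ g := by
    intro g
    rw [Finset.sum_comm]
    refine Finset.sum_congr rfl fun ξ hξ => ?_
    rw [Finset.mem_range] at hξ
    obtain ⟨-, hd2, hd3⟩ := hDL p 3 m a G τ F ξ hp1 (by norm_num) (by omega) (hcl ξ hξ)
    have hper : ∀ g, dlt p a F ξ (g + p • vv p m (a + 1) τ) = dlt p a F ξ g := by
      intro g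
      rw [p_vv p m a τ (by omega)]
      exact hd2 g
    have hs := ((hSL p G (vv p m (a + 1) τ) (by omega)).2.2 (dlt p a F ξ) hper).1 g
    have h0 : slc p (vv p m (a + 1) τ) 0 (dlt p a F ξ) g = 0 := by
      have := hd3 1 0 le_rfl (by omega) (dvd_zero p) g
      rwa [pow_one] at this
    rw [← hs, Finset.range_eq_Ico, Finset.sum_eq_sum_Ico_succ_bot (by omega : 0 < p), h0, zero_add]
  -- sums of the weights
  have hsumw : ∀ g, ∑ ξ ∈ range (p ^ a), ww p a F ξ g =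
      p * ∑ ξ ∈ range (p ^ (a + 1)), ‖F ξ g‖ ^ 2 := by
    intro g
    unfold ww
    rw [← Finset.mul_sum, (hRS p a 1 hp1).1 ℝ (fun x => ‖F x g‖ ^ 2), pow_one]
  have hsumw8 : ∑ ξ ∈ range (p ^ a), ∑ g, ww p a F ξ g ^ 8 ≤
      (p : ℝ) ^ 15 * ∑ ξ ∈ range (p ^ (a + 1)), ∑ g, ‖F ξ g‖ ^ 16 := by
    rw [(hRS p a 1 hp1).1 ℝ (fun x => ∑ g, ‖F x g‖ ^ 16), pow_one, Finset.mul_sum]
    refine Finset.sum_le_sum fun ξ _ => ?_
    rw [Finset.sum_comm, Finset.mul_sum]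
    exact Finset.sum_le_sum fun g _ => pow16 p (by omega) _
  -- the sets
  set E : ℝ := ∑ ξ ∈ range (p ^ (a + 1)), ∑ g, ‖F ξ g‖ ^ 16 with hE
  have hE0 : 0 ≤ E := Finset.sum_nonneg fun _ _ => Finset.sum_nonneg fun _ _ =>
    pow_nonneg (norm_nonneg _) _
  clear_value E
  have hset : ∀ r ∈ Ico 1 p,
      cnt {g : G | Y / p ≤ ‖∑ ξ ∈ range (p ^ a), δ r ξ g‖ ∧
        θ / (p : ℝ) ^ 2 * ∑ ξ ∈ range (p ^ a), ww p a F ξ g ≤
          ‖∑ ξ ∈ range (p ^ a), δ r ξ g‖} * Y ^ 8 ≤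
      (p : ℝ) ^ 23 * (Real.exp (C₁ * Real.log ((n : ℝ) + 2) ^ 2) * (p : ℝ) ^ (4 * a) * E) := by
    intro r hr
    have h := hC (m - a) n a (r : ℤ) G u0 u1 u2 (ww p a F) (δ r) (θ / (p : ℝ) ^ 2) (Y / p)
      (hsys r hr) han (by positivity) (const_aux p A n hp1 θ hθ)
      (by
        rw [div_le_one (by positivity)]
        exact hθ1.trans (one_le_pow₀ hp1r))
      (by
        intro ξ hξ g
        have h1 : ww p a F ξ g ≤ (p : ℝ) * ∑ i ∈ range p, (p : ℝ) ^ (A * (n + 1)) * Y := by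
          unfold ww
          gcongr with i hi
          exact hB _ (hlt ξ i hξ (Finset.mem_range.1 hi)) g
        refine h1.trans ?_
        rw [Finset.sum_const, Finset.card_range, nsmul_eq_mul]
        have h2 : (p : ℝ) ^ (A * (n + 1) + 3) ≤ (p : ℝ) ^ ((A + 3 * p) * (n + 1)) := by
          apply pow_le_pow_right₀ hp1r
          nlinarith [Nat.zero_le n, Nat.zero_le A, Nat.zero_le (p * n)]
        rw [mul_div_assoc', le_div_iff₀ hp0]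
        calc (p : ℝ) * ((p : ℝ) * ((p : ℝ) ^ (A * (n + 1)) * Y)) * p
            = (p : ℝ) ^ (A * (n + 1) + 3) * Y := by ring
          _ ≤ (p : ℝ) ^ ((A + 3 * p) * (n + 1)) * Y := by gcongr)
    rw [div_pow, mul_div_assoc', div_le_iff₀ (by positivity)] at h
    refine h.trans ?_
    calc Real.exp (C₁ * Real.log ((n : ℝ) + 2) ^ 2) * (p : ℝ) ^ (4 * a) *
          (∑ ξ ∈ range (p ^ a), ∑ g, ww p a F ξ g ^ 8) * (p : ℝ) ^ 8
        ≤ Real.exp (C₁ * Real.log ((n : ℝ) + 2) ^ 2) * (p : ℝ) ^ (4 * a) *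
          ((p : ℝ) ^ 15 * E) * (p : ℝ) ^ 8 := by gcongr
      _ = _ := by ring
  have hcov := cnt_le_sum
    {g : G | Y ≤ ‖∑ ξ ∈ range (p ^ a), dlt p a F ξ g‖ ∧
          θ * ∑ ξ ∈ range (p ^ (a + 1)), ‖F ξ g‖ ^ 2 ≤
            ‖∑ ξ ∈ range (p ^ a), dlt p a F ξ g‖} (Ico 1 p)
    (fun r => {g : G | Y / p ≤ ‖∑ ξ ∈ range (p ^ a), δ r ξ g‖ ∧
        θ / (p : ℝ) ^ 2 * ∑ ξ ∈ range (p ^ a), ww p a F ξ g ≤
          ‖∑ ξ ∈ range (p ^ a), δ r ξ g‖})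
    (by
      intro g hg
      obtain ⟨hg1, hg2⟩ := hg
      obtain ⟨r, hr, hbig⟩ : ∃ r ∈ Ico 1 p, ‖∑ ξ ∈ range (p ^ a), dlt p a F ξ g‖ / p ≤
          ‖∑ ξ ∈ range (p ^ a), δ r ξ g‖ := by
        by_contra hcon
        push Not at hcon
        have h1 : ‖∑ ξ ∈ range (p ^ a), dlt p a F ξ g‖ <
            ∑ r ∈ Ico 1 p, ‖∑ ξ ∈ range (p ^ a), dlt p a F ξ g‖ / p := by
          calc ‖∑ ξ ∈ range (p ^ a), dlt p a F ξ g‖
              = ‖∑ r ∈ Ico 1 p, ∑ ξ ∈ range (p ^ a), δ r ξ g‖ := by rw [hdec]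
            _ ≤ ∑ r ∈ Ico 1 p, ‖∑ ξ ∈ range (p ^ a), δ r ξ g‖ := norm_sum_le _ _
            _ < ∑ r ∈ Ico 1 p, ‖∑ ξ ∈ range (p ^ a), dlt p a F ξ g‖ / p :=
                Finset.sum_lt_sum_of_nonempty ⟨1, Finset.mem_Ico.2 ⟨le_rfl, hp1⟩⟩ hcon
        rw [Finset.sum_const, Nat.card_Ico, nsmul_eq_mul] at h1
        have h2 : ((p - 1 : ℕ) : ℝ) * (‖∑ ξ ∈ range (p ^ a), dlt p a F ξ g‖ / p) ≤
            (p : ℝ) * (‖∑ ξ ∈ range (p ^ a), dlt p a F ξ g‖ / p) := by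
          have : ((p - 1 : ℕ) : ℝ) ≤ p := by exact_mod_cast Nat.sub_le p 1
          gcongr
        rw [mul_div_cancel₀ _ hp0.ne'] at h2
        linarith
      refine ⟨r, hr, ?_, ?_⟩
      · exact (div_le_div_of_nonneg_right hg1 hp0.le).trans hbig
      · refine le_trans ?_ hbig
        rw [hsumw, le_div_iff₀ hp0]
        calc θ / (p : ℝ) ^ 2 * (p * ∑ ξ ∈ range (p ^ (a + 1)), ‖F ξ g‖ ^ 2) * p
            = θ * ∑ ξ ∈ range (p ^ (a + 1)), ‖F ξ g‖ ^ 2 := by field_simp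
          _ ≤ _ := hg2)
  calc _ ≤ (∑ r ∈ Ico 1 p, cnt {g : G | Y / p ≤ ‖∑ ξ ∈ range (p ^ a), δ r ξ g‖ ∧
        θ / (p : ℝ) ^ 2 * ∑ ξ ∈ range (p ^ a), ww p a F ξ g ≤
          ‖∑ ξ ∈ range (p ^ a), δ r ξ g‖}) * Y ^ 8 := by gcongr
    _ ≤ ∑ r ∈ Ico 1 p, (p : ℝ) ^ 23 *
        (Real.exp (C₁ * Real.log ((n : ℝ) + 2) ^ 2) * (p : ℝ) ^ (4 * a) * E) := by
        rw [Finset.sum_mul]
        exact Finset.sum_le_sum hset
    _ = ((p - 1 : ℕ) : ℝ) * ((p : ℝ) ^ 23 *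
        (Real.exp (C₁ * Real.log ((n : ℝ) + 2) ^ 2) * (p : ℝ) ^ (4 * a) * E)) := by
        rw [Finset.sum_const, Nat.card_Ico, nsmul_eq_mul]
    _ ≤ (p : ℝ) * ((p : ℝ) ^ 23 *
        (Real.exp (C₁ * Real.log ((n : ℝ) + 2) ^ 2) * (p : ℝ) ^ (4 * a) * E)) := by
        have : ((p - 1 : ℕ) : ℝ) ≤ p := by exact_mod_cast Nat.sub_le p 1
        gcongr
    _ = ((p : ℝ) ^ 24 * Real.exp (C₁ * Real.log ((n : ℝ) + 2) ^ 2)) * ((p : ℝ) ^ (4 * a) * E) := by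
        ring
    _ ≤ Real.exp ((C₁ + 24 * Real.log p / Real.log 2 ^ 2) * Real.log ((n : ℝ) + 2) ^ 2) *
        ((p : ℝ) ^ (4 * a) * E) := by
        gcongr
        exact exp_aux p hp1 C₁ n
    _ = _ := by ring

end Pool.Agent.H89.VQ
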